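import Pool.Agent.H608.Tw.Mono

/-!
# Linear independence of monomials
-/

set_option autoImplicit false

namespace Pool.Agent.H608.Tw

open Finset Filter Topology

lemma B_modEq {d p m : ℕ} (hpm : p ≡ m [MOD d]) {a : ℝ} (ha : ∃ z : ℤ, (d : ℝ) * a = z) : B (p * a) = B (m * a) := by
  obtain ⟨z, hz⟩ := ha
  obtain ⟨t, ht⟩ := (Nat.modEq_iff_dvd.1 hpm)
  have ht' : (m : ℝ) - p = d * t := by exact_mod_cast ht
  have h1 : (m : ℝ) * a = p * a + ((t * z : ℤ) : ℝ) := by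
    push_cast
    rw [← hz]
    linear_combination a * ht'
  rw [h1, B_add_int]

lemma mul_D_tendsto {Q : ℕ → ℕ} (hQ : Tendsto Q atTop atTop) (hQ2 : ∀ k, 2 ≤ Q k) {d m : ℕ} (hm : ∀ k, Q k ≡ m [MOD d])
    {x : ℝ} (hx : ∃ z : ℤ, (d : ℝ) * x = z) : Tendsto (fun k => (Q k : ℝ) * D (Q k) x) atTop (𝓝 (B (m * x))) := by
  have h1 : ∀ k, (Q k : ℝ) * D (Q k) x = B (m * x) + D (Q k) (Q k * x) := by
    intro k
    have h0 : (Q k : ℝ) ≠ 0 := by
      have : (2 : ℝ) ≤ Q k := by exact_mod_cast hQ2 k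
      positivity
    rw [D_succ (hQ2 k) x, B_modEq (hm k) hx]
    field_simp
  simp only [h1]
  have h2 : Tendsto (fun k => D (Q k) (Q k * x)) atTop (𝓝 0) := by
    refine squeeze_zero_norm (a := fun k => 1 / (Q k : ℝ)) (fun k => ?_) ?_
    · rw [Real.norm_eq_abs]
      exact D_bound (hQ2 k) _
    · have h3 : Tendsto (fun k => ((Q k : ℕ) : ℝ)) atTop atTop := tendsto_natCast_atTop_atTop.comp hQ
      simp only [one_div]
      exact h3.inv_tendsto_atTop
  have h4 := h2.const_add (B (m * x))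
  rwa [add_zero] at h4

section Choice

variable {P : ℕ → ℕ} (hP : StrictMono P) (hp : ∀ j, (P j).Prime ∧ 2 ^ j ≤ P j)

/-- the exponential sum vanishes on a cylinder -/
def Van (P : ℕ → ℕ) (n : ℕ) (ε : ℕ → Bool) {r t : ℕ} (a : Fin r → ℝ) (α : Fin t → Fin r → ℤ) (c : Fin t → ℝ) : Prop :=
  ∀ ε' : ℕ → Bool, (∀ j < n, ε' j = ε j) → ∑ j, c j * (2 : ℝ) ^ (∑ i, (α j i : ℝ) * Lam (Es P ε') (a i)) = 0

include hP hp

lemma Van_step {n : ℕ} {ε : ℕ → Bool} {r t : ℕ} {a : Fin r → ℝ} {α : Fin t → Fin r → ℤ} {c : Fin t → ℝ}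
    (h : Van P n ε a α c) {d m : ℕ} (ha : ∀ i, ∃ z : ℤ, (d : ℝ) * a i = z)
    (hr : ∀ n, ∃ j, n ≤ j ∧ P j ≡ m [MOD d]) :
    Van P n ε a α fun j => c j * ∑ i, (α j i : ℝ) * B (m * a i) := by
  intro ε' hε'
  choose J hJ1 hJ2 using fun k => hr (max n k)
  have hJn : ∀ k, n ≤ J k := fun k => (le_max_left _ _).trans (hJ1 k)
  have hJk : ∀ k, k ≤ J k := fun k => (le_max_right _ _).trans (hJ1 k)
  have hJt : Tendsto J atTop atTop := tendsto_atTop_mono hJk tendsto_id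
  have hQt : Tendsto (fun k => P (J k)) atTop atTop := hP.tendsto_atTop.comp hJt
  have hag : ∀ k (b : Bool), ∀ i < n, Function.update ε' (J k) b i = ε i := by
    intro k b i hi
    rw [Function.update_of_ne (by have := hJn k; omega)]
    exact hε' i hi
  have hup : ∀ k x, Lam (Es P (Function.update ε' (J k) true)) x =
      Lam (Es P (Function.update ε' (J k) false)) x + D (P (J k)) x := by
    intro k x
    have h6 := Lam_update hP hp x (Function.update ε' (J k) false) (j := J k) (Function.update_self _ _ _)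
    rwa [Function.update_idem] at h6
  -- the difference
  have h1 : ∀ k, ∑ j, c j * ((2 : ℝ) ^ (∑ i, (α j i : ℝ) * Lam (Es P (Function.update ε' (J k) false)) (a i)) *
      ((P (J k) : ℝ) • ((2 : ℝ) ^ (0 + ∑ i, (α j i : ℝ) * D (P (J k)) (a i)) - (2 : ℝ) ^ (0 : ℝ)))) = 0 := by
    intro k
    have h2 := h _ (hag k true)
    have h3 := h _ (hag k false)
    have h4 : ∀ j, (2 : ℝ) ^ (∑ i, (α j i : ℝ) * Lam (Es P (Function.update ε' (J k) true)) (a i)) =
        (2 : ℝ) ^ (∑ i, (α j i : ℝ) * Lam (Es P (Function.update ε' (J k) false)) (a i)) *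
          (2 : ℝ) ^ (0 + ∑ i, (α j i : ℝ) * D (P (J k)) (a i)) := by
      intro j
      rw [← Real.rpow_add (by norm_num)]
      congr 1
      simp only [hup, mul_add, sum_add_distrib]
      ring
    simp only [h4] at h2
    have h5 : ∀ j, c j * ((2 : ℝ) ^ (∑ i, (α j i : ℝ) * Lam (Es P (Function.update ε' (J k) false)) (a i)) *
        ((P (J k) : ℝ) • ((2 : ℝ) ^ (0 + ∑ i, (α j i : ℝ) * D (P (J k)) (a i)) - (2 : ℝ) ^ (0 : ℝ)))) =
        (P (J k) : ℝ) * (c j * ((2 : ℝ) ^ (∑ i, (α j i : ℝ) * Lam (Es P (Function.update ε' (J k) false)) (a i)) *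
          (2 : ℝ) ^ (0 + ∑ i, (α j i : ℝ) * D (P (J k)) (a i)))) -
        (P (J k) : ℝ) * (c j * (2 : ℝ) ^ (∑ i, (α j i : ℝ) * Lam (Es P (Function.update ε' (J k) false)) (a i))) := by
      intro j
      rw [smul_eq_mul, Real.rpow_zero]
      ring
    simp only [h5, sum_sub_distrib, ← mul_sum]
    rw [h2, h3]
    ring
  -- the limit
  have hε0 : Tendsto (fun k => Function.update ε' (J k) false) atTop (𝓝 ε') := by
    rw [tendsto_pi_nhds]
    intro i
    apply tendsto_const_nhds.congr'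
    filter_upwards [eventually_gt_atTop i] with k hk
    rw [Function.update_of_ne]
    have := hJk k
    omega
  have h2 : Tendsto (fun k => ∑ j, c j * ((2 : ℝ) ^ (∑ i, (α j i : ℝ) * Lam (Es P (Function.update ε' (J k) false)) (a i)) *
      ((P (J k) : ℝ) • ((2 : ℝ) ^ (0 + ∑ i, (α j i : ℝ) * D (P (J k)) (a i)) - (2 : ℝ) ^ (0 : ℝ))))) atTop
      (𝓝 (∑ j, c j * ((2 : ℝ) ^ (∑ i, (α j i : ℝ) * Lam (Es P ε') (a i)) *
        (Real.log 2 * ∑ i, (α j i : ℝ) * B (m * a i))))) := by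
    apply tendsto_finsetSum
    intro j _
    refine (Tendsto.mul ?_ ?_).const_mul _
    · have h3 : Continuous fun ε : ℕ → Bool => (2 : ℝ) ^ (∑ i, (α j i : ℝ) * Lam (Es P ε) (a i)) :=
        Continuous.rpow continuous_const (continuous_finsetSum _ fun i _ => continuous_const.mul (Lam_cont hP hp _))
          fun _ => Or.inl (by norm_num)
      exact (h3.tendsto ε').comp hε0
    · have h3 : HasDerivAt (fun x : ℝ => (2 : ℝ) ^ x) (Real.log 2) 0 := by
        have h4 := (hasDerivAt_id (0 : ℝ)).const_rpow (a := 2) (by norm_num)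
        simpa using h4
      have h5 := h3.hasFDerivAt.hasFDerivWithinAt (s := Set.univ)
      have hlim : Tendsto (fun k => ∑ i, (α j i : ℝ) * D (P (J k)) (a i)) atTop (𝓝 0) := by
        have h8 : Tendsto (fun k => ∑ i, (α j i : ℝ) * D (P (J k)) (a i)) atTop (𝓝 (∑ i, (α j i : ℝ) * 0)) := by
          apply tendsto_finsetSum
          intro i _
          refine Tendsto.const_mul _ ?_
          refine squeeze_zero_norm (a := fun k => 1 / (P (J k) : ℝ)) (fun k => ?_) ?_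
          · rw [Real.norm_eq_abs]
            exact D_bound (hp _).1.two_le _
          · have h3 : Tendsto (fun k => ((P (J k) : ℕ) : ℝ)) atTop atTop := tendsto_natCast_atTop_atTop.comp hQt
            simp only [one_div]
            exact h3.inv_tendsto_atTop
        simpa using h8
      have h6 := h5.lim (c := fun k => (P (J k) : ℝ)) (d := fun k => ∑ i, (α j i : ℝ) * D (P (J k)) (a i))
        (v := ∑ i, (α j i : ℝ) * B (m * a i)) hlim (Eventually.of_forall fun _ => Set.mem_univ _) ?_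
      · simpa [mul_comm, mul_sum] using h6
      · have h7 : ∀ k, (P (J k) : ℝ) • ∑ i, (α j i : ℝ) * D (P (J k)) (a i) =
            ∑ i, (α j i : ℝ) * ((P (J k) : ℝ) * D (P (J k)) (a i)) := by
          intro k
          rw [smul_eq_mul, mul_sum]
          refine sum_congr rfl fun i _ => ?_
          ring
        simp only [h7]
        apply tendsto_finsetSum
        intro i _
        exact (mul_D_tendsto hQt (fun k => (hp _).1.two_le) hJ2 (ha i)).const_mul _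
  simp only [h1] at h2
  have h3 := tendsto_nhds_unique h2 tendsto_const_nhds
  have h4 : ∑ j, c j * ((2 : ℝ) ^ (∑ i, (α j i : ℝ) * Lam (Es P ε') (a i)) * (Real.log 2 * ∑ i, (α j i : ℝ) * B (m * a i))) =
      Real.log 2 * ∑ j, (c j * ∑ i, (α j i : ℝ) * B (m * a i)) * (2 : ℝ) ^ (∑ i, (α j i : ℝ) * Lam (Es P ε') (a i)) := by
    rw [mul_sum]
    refine sum_congr rfl fun j _ => ?_
    ring
  rw [h4] at h3
  exact (mul_eq_zero.1 h3).resolve_left (Real.log_pos (by norm_num)).ne'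

lemma Van_sub {n : ℕ} {ε : ℕ → Bool} {r t : ℕ} {a : Fin r → ℝ} {α : Fin t → Fin r → ℤ} {c : Fin t → ℝ}
    (h : Van P n ε a α c) {d m : ℕ} (ha : ∀ i, ∃ z : ℤ, (d : ℝ) * a i = z)
    (hr : ∀ n, ∃ j, n ≤ j ∧ P j ≡ m [MOD d]) (b : ℝ) :
    Van P n ε a α fun j => c j * (∑ i, (α j i : ℝ) * B (m * a i) - b) := by
  intro ε' hε'
  have h1 := Van_step hP hp h ha hr ε' hε'
  have h2 := h ε' hε'
  have h3 : ∑ j, (c j * (∑ i, (α j i : ℝ) * B (m * a i) - b)) * (2 : ℝ) ^ (∑ i, (α j i : ℝ) * Lam (Es P ε') (a i)) =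
      ∑ j, (c j * ∑ i, (α j i : ℝ) * B (m * a i)) * (2 : ℝ) ^ (∑ i, (α j i : ℝ) * Lam (Es P ε') (a i)) -
        b * ∑ j, c j * (2 : ℝ) ^ (∑ i, (α j i : ℝ) * Lam (Es P ε') (a i)) := by
    rw [mul_sum, ← sum_sub_distrib]
    refine sum_congr rfl fun j _ => ?_
    ring
  rw [h3, h1, h2]
  ring

lemma not_Van {n : ℕ} {ε : ℕ → Bool} {r t : ℕ} {a : Fin r → ℝ} {α : Fin t → Fin r → ℤ} {c : Fin t → ℝ} {d : ℕ}
    (hd : 1 ≤ d) (ha : ∀ i, ∃ z : ℤ, (d : ℝ) * a i = z)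
    (hr : ∀ D m : ℕ, 1 ≤ D → m.Coprime D → ∀ n, ∃ j, n ≤ j ∧ P j ≡ m [MOD D])
    (hα : ∀ j k, j ≠ k → ∃ m : ℕ, m.Coprime d ∧ ∑ i, (α j i : ℝ) * B (m * a i) ≠ ∑ i, (α k i : ℝ) * B (m * a i))
    (hc : c ≠ 0) : ¬ Van P n ε a α c := by
  intro h
  obtain ⟨j₀, hj₀⟩ : ∃ j, c j ≠ 0 := by
    by_contra hcon
    push Not at hcon
    exact hc (funext hcon)
  choose! m hm1 hm2 using fun k (hk : k ≠ j₀) => hα j₀ k hk.symm
  have key : ∀ T : Finset (Fin t), j₀ ∉ T →
      Van P n ε a α fun j => c j * ∏ k ∈ T, (∑ i, (α j i : ℝ) * B (m k * a i) - ∑ i, (α k i : ℝ) * B (m k * a i)) := by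
    intro T
    induction T using Finset.induction_on with
    | empty => 
      intro _
      simpa using h
    | insert k T hk ih =>
      intro hj
      have hkj : k ≠ j₀ := fun h => hj (by rw [h]; exact mem_insert_self _ _)
      have h1 := Van_sub hP hp (ih fun h => hj (mem_insert_of_mem h)) ha (hr d (m k) hd (hm1 k hkj))
        (∑ i, (α k i : ℝ) * B (m k * a i))
      intro ε' hε'
      have h2 := h1 ε' hε'
      rw [← h2]
      refine sum_congr rfl fun j _ => ?_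
      simp only [prod_insert hk]
      ring
  have h1 := key (univ.erase j₀) (notMem_erase _ _) ε fun _ _ => rfl
  rw [sum_eq_single j₀] at h1
  · have h2 : (2 : ℝ) ^ (∑ i, (α j₀ i : ℝ) * Lam (Es P ε) (a i)) ≠ 0 := (Real.rpow_pos_of_pos (by norm_num) _).ne'
    have h3 := (mul_eq_zero.1 h1).resolve_right h2
    have h4 := (mul_eq_zero.1 h3).resolve_left hj₀
    rw [prod_eq_zero_iff] at h4
    obtain ⟨k, hk, h5⟩ := h4
    exact hm2 k (mem_erase.1 hk).1 (sub_eq_zero.1 h5)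
  · intro j _ hj
    have h2 : ∏ k ∈ univ.erase j₀, (∑ i, (α j i : ℝ) * B (m k * a i) - ∑ i, (α k i : ℝ) * B (m k * a i)) = 0 :=
      prod_eq_zero (mem_erase.2 ⟨hj, mem_univ _⟩) (sub_self _)
    simp only [h2, mul_zero, zero_mul]
  · intro h
    exact absurd (mem_univ _) h

end Choice

/-- the main step -/
theorem exists_twist_alg {A : Set ℕ} (hA : ∀ p ∈ A, p.Prime) (hrich : Rich A) {ω : ℕ → ℕ} (hω : Tendsto ω atTop atTop)
    {δ : ℝ} (hδ : 0 < δ) {K : Set ℝ} (hK : K.Countable) :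
    ∃ E ⊆ A, Sparse E ∧ (∀ x, |Lam E x| ≤ δ) ∧ (∀ k, ({p | p ∈ E ∧ p ≤ k}).ncard ≤ ω k) ∧
      ∀ (r t : ℕ) (a : Fin r → ℚ) (α : Fin t → Fin r → ℤ) (c : Fin t → ℝ) (d : ℕ), (∀ i, ∃ z : ℤ, (d : ℝ) * a i = z) →
        (∀ i, Real.Gamma (a i) ≠ 0) → 1 ≤ d →
        (∀ j k, j ≠ k → ∃ m : ℕ, m.Coprime d ∧ ∑ i, (α j i : ℝ) * B (m * a i) ≠ ∑ i, (α k i : ℝ) * B (m * a i)) →
        (∀ j, c j ∈ K) → c ≠ 0 → ∑ j, c j * ∏ i, GamE E (a i) ^ α j i ≠ 0 := by
  classical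
  obtain ⟨M, hM⟩ : ∃ M : ℕ, 1 ≤ M ∧ 2 / (M : ℝ) ≤ δ := by
    refine ⟨⌈2 / δ⌉₊ + 1, by omega, ?_⟩
    have h1 := Nat.le_ceil (2 / δ)
    rw [div_le_iff₀ (by positivity)]
    rw [div_le_iff₀ hδ] at h1
    push_cast
    nlinarith
  obtain ⟨P, hPm, hPA, hPω, hPr⟩ := exists_seq hrich hω M
  have hp : ∀ j, (P j).Prime ∧ 2 ^ j ≤ P j := fun j => ⟨hA _ (hPA j).1, (hPA j).2.2⟩
  have : Countable K := hK.to_subtype
  -- the index set
  obtain ⟨ε, hε⟩ := baire
    (ι := {s : (Σ r : ℕ, Σ t : ℕ, ((Fin r → ℚ) × (Fin t → Fin r → ℤ) × (Fin t → K) × ℕ)) //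
      (∀ i, ∃ z : ℤ, (s.2.2.2.2.2 : ℝ) * s.2.2.1 i = z) ∧ (∀ i, Real.Gamma (s.2.2.1 i) ≠ 0) ∧ 1 ≤ s.2.2.2.2.2 ∧
        (∀ j k, j ≠ k → ∃ m : ℕ, m.Coprime s.2.2.2.2.2 ∧
          ∑ i, (s.2.2.2.1 j i : ℝ) * B (m * s.2.2.1 i) ≠ ∑ i, (s.2.2.2.1 k i : ℝ) * B (m * s.2.2.1 i)) ∧
        (fun j => (s.2.2.2.2.1 j : ℝ)) ≠ 0})
    (fun s ε => ∑ j, (s.1.2.2.2.2.1 j : ℝ) * ∏ i, GamE (Es P ε) (s.1.2.2.1 i) ^ (s.1.2.2.2.1 j i))
    (fun s => by
      simp only [prod_GamE]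
      refine continuous_finsetSum _ fun j _ => continuous_const.mul (continuous_const.mul ?_)
      refine Continuous.rpow continuous_const (continuous_finsetSum _ fun i _ => ?_) fun _ => Or.inl (by norm_num)
      exact continuous_const.mul (Lam_cont hPm hp _))
    (fun s ε n => by
      obtain ⟨⟨r, t, a, α, c, d⟩, h1, h2, h3, h4, h5⟩ := s
      simp only at h1 h2 h3 h4 h5 ⊢
      by_contra hcon
      push Not at hcon
      refine not_Van hPm hp (n := n) (ε := ε) (c := fun j => (c j : ℝ) * ∏ i, Real.Gamma (a i) ^ α j i) h3 h1 hPr h4 ?_ ?_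
      · intro h6
        apply h5
        funext j
        have h7 := congrFun h6 j
        simp only [Pi.zero_apply] at h7 ⊢
        exact (mul_eq_zero.1 h7).resolve_right (prod_ne_zero_iff.2 fun i _ => zpow_ne_zero _ (h2 i))
      · intro ε' hε'
        have h6 := hcon ε' hε'
        simp only [prod_GamE] at h6
        rw [← h6]
        refine sum_congr rfl fun j _ => ?_
        ring)
  refine ⟨Es P ε, ?_, Es_sparse hPm hp ε, fun x => ?_, fun k => ?_, fun r t a α c d h1 h2 h3 h4 h5 h6 => ?_⟩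
  · rintro p ⟨j, _, rfl⟩
    exact (hPA j).1
  · rw [Lam_Es hPm hp]
    have h1 : HasSum (fun j : ℕ => 1 / (M : ℝ) * (1 / 2) ^ j) (1 / (M : ℝ) * 2) := hasSum_geometric_two.mul_left _
    have h2 := tsum_of_norm_bounded h1 (f := fun j => if ε j = true then D (P j) x else 0) fun j => by
      rw [Real.norm_eq_abs]
      have hMR : (0 : ℝ) < M := by exact_mod_cast hM.1
      split_ifs
      · refine (D_bound (hp j).1.two_le x).trans ?_
        have h3 : (2 : ℝ) ^ j * M ≤ P j := by exact_mod_cast (hPA j).2.1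
        rw [one_div_pow, one_div_mul_one_div, mul_comm (M : ℝ)]
        exact one_div_le_one_div_of_le (by positivity) h3
      · rw [abs_zero]
        positivity
    rw [Real.norm_eq_abs] at h2
    refine h2.trans (le_trans (le_of_eq ?_) hM.2)
    ring
  · have h1 : {p | p ∈ Es P ε ∧ p ≤ k} ⊆ P '' {j | j < ω k} := by
      rintro p ⟨⟨j, _, rfl⟩, h2⟩
      exact ⟨j, hPω j k h2, rfl⟩
    have h2 : ({j | j < ω k} : Set ℕ).Finite := Set.finite_lt_nat _
    refine (Set.ncard_le_ncard h1 (h2.image _)).trans ((Set.ncard_image_le h2).trans ?_)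
    have h3 : ({j | j < ω k} : Set ℕ) = ((range (ω k) : Finset ℕ) : Set ℕ) := by
      ext j
      simp
    rw [h3, Set.ncard_coe_finset, card_range]
  · exact hε ⟨⟨r, t, a, α, fun j => ⟨c j, h5 j⟩, d⟩, h1, h2, h3, h4, h6⟩

end Pool.Agent.H608.Tw
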