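import Mathlib

/-!
# An odd distribution
-/

set_option autoImplicit false

namespace Pool.Agent.H608.Tw

open Finset Filter Topology

/-- the first Bernoulli function with the opposite sign: `1 / 2 - {y}`, and `0` at the integers -/
noncomputable def B (y : ℝ) : ℝ := if Int.fract y = 0 then 0 else 1 / 2 - Int.fract y

lemma B_add_int (y : ℝ) (n : ℤ) : B (y + n) = B y := by
  unfold B
  rw [Int.fract_add_intCast]

lemma B_add_nat (y : ℝ) (n : ℕ) : B (y + n) = B y := by
  have := B_add_int y n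
  exact_mod_cast this

lemma B_neg (y : ℝ) : B (-y) = -B y := by
  unfold B
  by_cases h : Int.fract y = 0
  · rw [if_pos h, if_pos (Int.fract_neg_eq_zero.2 h), neg_zero]
  · rw [if_neg h, if_neg fun h' => h (Int.fract_neg_eq_zero.1 h'), Int.fract_neg h]
    ring

lemma B_abs (y : ℝ) : |B y| ≤ 1 / 2 := by
  unfold B
  have h1 := Int.fract_nonneg y
  have h2 := Int.fract_lt_one y
  split_ifs
  · rw [abs_zero]
    norm_num
  · rw [abs_le]
    constructor <;> linarith

lemma B_of_mem {y : ℝ} (h0 : 0 < y) (h1 : y < 1) : B y = 1 / 2 - y := by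
  unfold B
  rw [Int.fract_eq_self.2 ⟨h0.le, h1⟩, if_neg h0.ne']

lemma B_zero : B 0 = 0 := by
  unfold B
  simp

/-- the distribution relation -/
lemma B_dist {N : ℕ} (hN : 1 ≤ N) (y : ℝ) : ∑ j ∈ range N, B ((y + j) / N) = B y := by
  have hN0 : (0 : ℝ) < N := by exact_mod_cast hN
  obtain ⟨S, hS⟩ : ∃ S : ℝ → ℝ, S = fun y => ∑ j ∈ range N, B ((y + j) / N) := ⟨_, rfl⟩
  have hper : Function.Periodic S 1 := by
    intro y
    rw [hS]
    simp only
    have h1 : ∑ j ∈ range N, B ((y + 1 + j) / N) = ∑ j ∈ range N, B ((y + ((j + 1 : ℕ) : ℝ)) / N) := by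
      refine sum_congr rfl fun j _ => ?_
      congr 1
      push_cast
      ring
    have h2 := sum_range_succ (fun j : ℕ => B ((y + j) / N)) N
    have h3 := sum_range_succ' (fun j : ℕ => B ((y + j) / N)) N
    have h4 : B ((y + N) / N) = B ((y + ((0 : ℕ) : ℝ)) / N) := by
      have h5 : (y + N) / N = (y + ((0 : ℕ) : ℝ)) / N + ((1 : ℕ) : ℝ) := by
        push_cast
        field_simp
        ring
      rw [h5, B_add_nat]
    rw [h1]
    linarith
  have h1 : S y = S (Int.fract y) := by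
    have h2 := hper.sub_zsmul_eq ⌊y⌋ (x := y)
    rw [zsmul_one] at h2
    rw [Int.fract]
    exact h2.symm
  have h2 : B y = B (Int.fract y) := by
    have h3 := B_add_int (Int.fract y) ⌊y⌋
    rw [Int.fract_add_floor] at h3
    exact h3
  have h3 : S y = B y := by
    rw [h1, h2]
    obtain ⟨f, hf⟩ : ∃ f, f = Int.fract y := ⟨_, rfl⟩
    have hf0 : 0 ≤ f := by rw [hf]; exact Int.fract_nonneg y
    have hf1 : f < 1 := by rw [hf]; exact Int.fract_lt_one y
    rw [← hf, hS]
    simp only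
    have hgauss : ∑ j ∈ range N, (j : ℝ) = N * (N - 1) / 2 := by
      have h4 := Finset.sum_range_id_mul_two N
      have h5 : (∑ j ∈ range N, (j : ℝ)) * 2 = N * (N - 1) := by
        have h6 : (((∑ j ∈ range N, j) * 2 : ℕ) : ℝ) = ((N * (N - 1) : ℕ) : ℝ) := by rw [h4]
        push_cast [Nat.cast_sub hN] at h6
        exact h6
      linarith
    rcases hf0.eq_or_lt with h0 | h0
    · rw [← h0, B_zero]
      obtain ⟨N', rfl⟩ : ∃ N', N = N' + 1 := ⟨N - 1, by omega⟩
      rw [sum_range_succ']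
      have h4 : ∑ j ∈ range N', B ((0 + ((j + 1 : ℕ) : ℝ)) / ((N' + 1 : ℕ) : ℝ)) =
          ∑ j ∈ range N', (1 / 2 - ((j : ℝ) + 1) / (N' + 1)) := by
        refine sum_congr rfl fun j hj => ?_
        have hj' : (j : ℝ) + 1 < N' + 1 := by
          have := mem_range.1 hj
          have h5 : (j : ℝ) < N' := by exact_mod_cast this
          linarith
        rw [B_of_mem]
        · push_cast
          ring
        · push_cast
          positivity
        · push_cast
          rw [div_lt_one (by positivity)]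
          linarith
      rw [h4, Nat.cast_zero, add_zero, zero_div, B_zero, add_zero, sum_sub_distrib, sum_const, card_range,
        ← sum_div, sum_add_distrib, sum_const, card_range]
      have h5 : ∑ j ∈ range N', (j : ℝ) = N' * (N' - 1) / 2 := by
        rw [sum_range_succ] at hgauss
        push_cast at hgauss
        linarith
      rw [h5]
      simp only [nsmul_eq_mul]
      field_simp
      ring
    · rw [B_of_mem h0 hf1]
      have h4 : ∑ j ∈ range N, B ((f + j) / N) = ∑ j ∈ range N, (1 / 2 - (f + j) / N) := by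
        refine sum_congr rfl fun j hj => ?_
        have hj' : (j : ℝ) + 1 ≤ N := by exact_mod_cast mem_range.1 hj
        apply B_of_mem
        · positivity
        · rw [div_lt_one hN0]
          linarith
      rw [h4, sum_sub_distrib, sum_const, card_range, ← sum_div, sum_add_distrib, sum_const, card_range, hgauss]
      simp only [nsmul_eq_mul]
      field_simp
      ring
  rw [hS] at h3
  exact h3

lemma sum_periodic {f : ℕ → ℝ} {N : ℕ} (hf : ∀ j, f (j + N) = f j) (g : ℕ) :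
    ∑ j ∈ range (g * N), f j = g * ∑ j ∈ range N, f j := by
  induction g with
  | zero => simp
  | succ g ih =>
    have h1 : ∀ j, f (g * N + j) = f j := by
      intro j
      clear ih
      induction g with
      | zero => simp
      | succ g ih =>
        rw [← ih, ← hf (g * N + j)]
        congr 1
        ring
    rw [Nat.succ_mul, sum_range_add, ih]
    simp only [h1]
    push_cast
    ring

/-- the distribution relation with a multiplier -/
lemma B_dist_mul {N m : ℕ} (hN : 1 ≤ N) (hm : 1 ≤ m) (x : ℝ) :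
    ∑ j ∈ range N, B (m * ((x + j) / N)) = (m.gcd N) * B ((m / m.gcd N : ℕ) * x) := by
  obtain ⟨g, hg⟩ : ∃ g, g = m.gcd N := ⟨_, rfl⟩
  have hg0 : 0 < g := by rw [hg]; exact Nat.gcd_pos_of_pos_left _ hm
  obtain ⟨m', hm'⟩ : g ∣ m := by rw [hg]; exact Nat.gcd_dvd_left _ _
  obtain ⟨N', hN'⟩ : g ∣ N := by rw [hg]; exact Nat.gcd_dvd_right _ _
  have hN'0 : 0 < N' := by
    rcases Nat.eq_zero_or_pos N' with h | h
    · rw [h, mul_zero] at hN'
      omega
    · exact h
  have hcop : Nat.Coprime m' N' := by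
    have h1 := Nat.coprime_div_gcd_div_gcd (m := m) (n := N) (by rw [← hg]; exact hg0)
    rw [← hg] at h1
    have h2 : m / g = m' := by rw [hm']; exact Nat.mul_div_cancel_left _ hg0
    have h3 : N / g = N' := by rw [hN']; exact Nat.mul_div_cancel_left _ hg0
    rwa [h2, h3] at h1
  rw [← hg]
  have hdiv : m / g = m' := by rw [hm']; exact Nat.mul_div_cancel_left _ hg0
  rw [hdiv]
  have hgR : (g : ℝ) ≠ 0 := by exact_mod_cast hg0.ne'
  have hN'R : (N' : ℝ) ≠ 0 := by exact_mod_cast hN'0.ne'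
  have h1 : ∀ j : ℕ, (m : ℝ) * ((x + j) / N) = (m' * x + (m' * j : ℕ)) / N' := by
    intro j
    rw [hm', hN']
    push_cast
    field_simp
  simp only [h1]
  rw [hN', sum_periodic (f := fun j : ℕ => B ((m' * x + (m' * j : ℕ)) / N')) (N := N')]
  · congr 1
    -- permutation of the residues
    obtain ⟨F, hF⟩ : ∃ F : ZMod N' → ℝ, F = fun i => B ((m' * x + (i.val : ℕ)) / N') := ⟨_, rfl⟩
    have : NeZero N' := ⟨hN'0.ne'⟩
    have hFn : ∀ t : ℕ, B ((m' * x + (t : ℕ)) / N') = F (t : ZMod N') := by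
      intro t
      rw [hF]
      simp only
      rw [ZMod.val_natCast]
      have h2 : ((t : ℕ) : ℝ) = ((t % N' : ℕ) : ℝ) + N' * ((t / N' : ℕ) : ℝ) := by
        exact_mod_cast (Nat.mod_add_div t N').symm
      have h3 : (m' * x + (t : ℕ)) / N' = (m' * x + ((t % N' : ℕ) : ℝ)) / N' + ((t / N' : ℕ) : ℝ) := by
        rw [h2]
        field_simp
        ring
      rw [h3, B_add_nat]
    have hsum : ∀ G : ZMod N' → ℝ, ∑ j ∈ range N', G (j : ZMod N') = ∑ i : ZMod N', G i := by
      intro G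
      obtain ⟨n, rfl⟩ : ∃ n, N' = n + 1 := ⟨N' - 1, by omega⟩
      rw [Finset.sum_range]
      show ∑ i : Fin (n + 1), G ((i : ℕ) : ZMod (n + 1)) = ∑ i : Fin (n + 1), G i
      refine sum_congr rfl fun i _ => ?_
      congr 1
      exact ZMod.natCast_zmod_val (n := n + 1) i
    have h4 : ∑ j ∈ range N', B ((m' * x + (m' * j : ℕ)) / N') = ∑ j ∈ range N', F ((m' : ZMod N') * (j : ZMod N')) := by
      refine sum_congr rfl fun j _ => ?_
      rw [hFn]
      push_cast
      rfl
    rw [h4, hsum fun i => F ((m' : ZMod N') * i)]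
    have h5 : ∑ i : ZMod N', F ((m' : ZMod N') * i) = ∑ i : ZMod N', F i := by
      obtain ⟨u, hu⟩ := (ZMod.isUnit_iff_coprime m' N').2 hcop
      rw [← hu]
      exact Fintype.sum_equiv (Units.mulLeft u) _ _ fun i => rfl
    rw [h5, ← hsum F, ← B_dist hN'0 (m' * x)]
    exact sum_congr rfl fun j _ => (hFn j).symm
  · intro j
    have h2 : (m' * x + (m' * (j + N') : ℕ)) / N' = (m' * x + (m' * j : ℕ)) / N' + ((m' : ℕ) : ℝ) := by
      push_cast
      field_simp
      ring
    rw [h2, B_add_nat]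

/-- the twist at the prime `p` -/
noncomputable def D (p : ℕ) (x : ℝ) : ℝ := ∑' k : ℕ, B ((p : ℝ) ^ (k + 1) * x) / (p : ℝ) ^ (k + 1)

lemma D_term_bound {p : ℕ} (hp : 2 ≤ p) (x : ℝ) (k : ℕ) :
    |B ((p : ℝ) ^ (k + 1) * x) / (p : ℝ) ^ (k + 1)| ≤ 1 / (2 * p) * (1 / 2) ^ k := by
  have hp0 : (2 : ℝ) ≤ p := by exact_mod_cast hp
  rw [abs_div, abs_of_pos (by positivity : (0 : ℝ) < (p : ℝ) ^ (k + 1)), div_le_iff₀ (by positivity)]
  refine (B_abs _).trans ?_
  have h1 : (2 : ℝ) ^ k ≤ (p : ℝ) ^ k := pow_le_pow_left₀ (by norm_num) hp0 k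
  have h2 : 1 / (2 * (p : ℝ)) * (1 / 2) ^ k * (p : ℝ) ^ (k + 1) = 1 / 2 * ((p : ℝ) ^ k / 2 ^ k) := by
    rw [one_div_pow, pow_succ]
    field_simp
  rw [h2]
  have h3 : 1 ≤ (p : ℝ) ^ k / 2 ^ k := by
    rw [one_le_div (by positivity)]
    exact h1
  linarith

lemma D_summable {p : ℕ} (hp : 2 ≤ p) (x : ℝ) : Summable fun k : ℕ => B ((p : ℝ) ^ (k + 1) * x) / (p : ℝ) ^ (k + 1) := by
  have h1 : Summable fun k : ℕ => 1 / (2 * (p : ℝ)) * (1 / 2) ^ k :=
    (summable_geometric_of_lt_one (by norm_num) (by norm_num)).mul_left _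
  exact Summable.of_norm_bounded h1 fun k => by
    rw [Real.norm_eq_abs]
    exact D_term_bound hp x k

lemma D_bound {p : ℕ} (hp : 2 ≤ p) (x : ℝ) : |D p x| ≤ 1 / p := by
  have h1 : HasSum (fun k : ℕ => 1 / (2 * (p : ℝ)) * (1 / 2) ^ k) (1 / (2 * (p : ℝ)) * 2) := hasSum_geometric_two.mul_left _
  have h2 := tsum_of_norm_bounded h1 fun k => by
    rw [Real.norm_eq_abs]
    exact D_term_bound hp x k
  rw [Real.norm_eq_abs] at h2
  refine h2.trans (le_of_eq ?_)
  have hp0 : (0 : ℝ) < p := by exact_mod_cast (by omega : 0 < p)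
  field_simp

lemma D_add_int (p : ℕ) (x : ℝ) (n : ℤ) : D p (x + n) = D p x := by
  unfold D
  apply tsum_congr
  intro k
  have h1 : (p : ℝ) ^ (k + 1) * (x + n) = (p : ℝ) ^ (k + 1) * x + (((p : ℤ) ^ (k + 1) * n : ℤ) : ℝ) := by
    push_cast
    ring
  rw [h1, B_add_int]

lemma D_neg (p : ℕ) (x : ℝ) : D p (-x) = -D p x := by
  unfold D
  rw [← tsum_neg]
  apply tsum_congr
  intro k
  rw [mul_neg, B_neg, neg_div]

/-- the distribution relation of the twist -/
lemma D_dist {p N : ℕ} (hp : p.Prime) (hN : 1 ≤ N) (x : ℝ) :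
    ∑ j ∈ range N, D p ((x + j) / N) = D p x + N.factorization p * B x := by
  have hp0 : (p : ℝ) ≠ 0 := by exact_mod_cast hp.ne_zero
  unfold D
  rw [← Summable.tsum_finsetSum fun j _ => D_summable hp.two_le _]
  have h1 : ∀ k : ℕ, ∑ j ∈ range N, B ((p : ℝ) ^ (k + 1) * ((x + j) / N)) / (p : ℝ) ^ (k + 1) =
      (((p ^ (k + 1)).gcd N : ℕ) : ℝ) * B (((p ^ (k + 1) / (p ^ (k + 1)).gcd N : ℕ) : ℝ) * x) / (p : ℝ) ^ (k + 1) := by
    intro k
    rw [← sum_div]
    have h2 := B_dist_mul (N := N) (m := p ^ (k + 1)) hN (Nat.one_le_pow _ _ hp.pos) x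
    push_cast at h2 ⊢
    rw [h2]
  simp only [h1]
  obtain ⟨v, hv⟩ : ∃ v, v = N.factorization p := ⟨_, rfl⟩
  have hgcd : ∀ k, (p ^ k).gcd N = p ^ min k v := by
    intro k
    obtain ⟨M, hM, hNM⟩ : ∃ M, ¬ p ∣ M ∧ N = p ^ v * M :=
      ⟨ordCompl[p] N, Nat.not_dvd_ordCompl hp (by omega), by rw [hv]; exact (Nat.ordProj_mul_ordCompl_eq_self N p).symm⟩
    have hcop : Nat.Coprime (p ^ k) M := Nat.Coprime.pow_left _ ((Nat.Prime.coprime_iff_not_dvd hp).2 hM)
    rw [hNM, Nat.Coprime.gcd_mul_right_cancel_right _ hcop.symm]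
    rcases le_total k v with h | h
    · rw [min_eq_left h]
      exact Nat.gcd_eq_left (pow_dvd_pow p h)
    · rw [min_eq_right h]
      exact Nat.gcd_eq_right (pow_dvd_pow p h)
  simp only [hgcd]
  have hs : Summable fun k : ℕ => ((p ^ min (k + 1) v : ℕ) : ℝ) * B (((p ^ (k + 1) / p ^ min (k + 1) v : ℕ) : ℝ) * x) /
      (p : ℝ) ^ (k + 1) := by
    have h2 := summable_sum fun (j : ℕ) (_ : j ∈ range N) => D_summable hp.two_le ((x + j) / N)
    refine h2.congr fun k => ?_
    rw [h1 k, hgcd]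
  rw [← hs.sum_add_tsum_nat_add v, ← hv, add_comm]
  congr 1
  · apply tsum_congr
    intro k
    rw [min_eq_right (by omega)]
    have h2 : p ^ (k + v + 1) / p ^ v = p ^ (k + 1) := by
      rw [show k + v + 1 = (k + 1) + v by ring, pow_add]
      exact Nat.mul_div_cancel _ (pow_pos hp.pos _)
    rw [h2]
    push_cast
    have h3 : (p : ℝ) ^ (k + v + 1) = (p : ℝ) ^ v * (p : ℝ) ^ (k + 1) := by ring
    rw [h3, mul_div_mul_left _ _ (pow_ne_zero _ hp0)]
  · have h2 : ∀ k ∈ range v, ((p ^ min (k + 1) v : ℕ) : ℝ) * B (((p ^ (k + 1) / p ^ min (k + 1) v : ℕ) : ℝ) * x) /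
        (p : ℝ) ^ (k + 1) = B x := by
      intro k hk
      have := mem_range.1 hk
      rw [min_eq_left (by omega), Nat.div_self (pow_pos hp.pos _)]
      push_cast
      rw [one_mul]
      field_simp
    rw [sum_congr rfl h2, sum_const, card_range, nsmul_eq_mul]

end Pool.Agent.H608.Tw
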