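import Mathlib

/-!
# Sparse sequences of primes in all residue classes
-/

set_option autoImplicit false

namespace Pool.Agent.H608.Tw

open Filter Topology

/-- `A` contains infinitely many elements of all reduced residue classes -/
def Rich (A : Set ℕ) : Prop := ∀ D m : ℕ, 1 ≤ D → m.Coprime D → ∀ n : ℕ, ∃ p ∈ A, n < p ∧ p ≡ m [MOD D]

lemma exists_seq {A : Set ℕ} (hA : Rich A) {ω : ℕ → ℕ} (hω : Tendsto ω atTop atTop) (M : ℕ) :
    ∃ P : ℕ → ℕ, StrictMono P ∧ (∀ j, P j ∈ A ∧ 2 ^ j * M ≤ P j ∧ 2 ^ j ≤ P j) ∧ (∀ j K, P j ≤ K → j + 1 ≤ ω K) ∧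
      ∀ D m : ℕ, 1 ≤ D → m.Coprime D → ∀ n, ∃ j, n ≤ j ∧ P j ≡ m [MOD D] := by
  classical
  -- thresholds
  have hT : ∀ b : ℕ, ∃ T : ℕ, ∀ K, T ≤ K → b ≤ ω K := fun b => eventually_atTop.1 (hω.eventually_ge_atTop b)
  choose T hT using hT
  -- the classes
  obtain ⟨u, hu⟩ : ∃ u : ℕ → ℕ × ℕ, u = fun j => (j.unpair.1).unpair := ⟨_, rfl⟩
  have hstep : ∀ j prev : ℕ, ∃ p ∈ A, prev < p ∧ 2 * prev < p ∧ M ≤ p ∧ 1 ≤ p ∧ T (j + 1) ≤ p ∧
      (1 ≤ (u j).1 → (u j).2.Coprime (u j).1 → p ≡ (u j).2 [MOD (u j).1]) := by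
    intro j prev
    by_cases h : 1 ≤ (u j).1 ∧ (u j).2.Coprime (u j).1
    · obtain ⟨p, hp, h1, h2⟩ := hA _ _ h.1 h.2 (prev + 2 * prev + M + T (j + 1))
      exact ⟨p, hp, by omega, by omega, by omega, by omega, by omega, fun _ _ => h2⟩
    · obtain ⟨p, hp, h1, _⟩ := hA 1 0 le_rfl (by norm_num) (prev + 2 * prev + M + T (j + 1))
      exact ⟨p, hp, by omega, by omega, by omega, by omega, by omega, fun h1 h2 => absurd ⟨h1, h2⟩ h⟩
  choose s hs1 hs2 hs3 hs4 hs5 hs6 hs7 using hstep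
  obtain ⟨P, hP0, hPs⟩ : ∃ P : ℕ → ℕ, P 0 = s 0 0 ∧ ∀ j, P (j + 1) = s (j + 1) (P j) :=
    ⟨fun j => Nat.rec (s 0 0) (fun j prev => s (j + 1) prev) j, rfl, fun j => rfl⟩
  have hform : ∀ j, ∃ prev, P j = s j prev := by
    intro j
    cases j with
    | zero => exact ⟨0, hP0⟩
    | succ j => exact ⟨P j, hPs j⟩
  refine ⟨P, strictMono_nat_of_lt_succ fun j => ?_, fun j => ⟨?_, ?_, ?_⟩, fun j K hK => ?_, fun D m hD hm n => ?_⟩
  · rw [hPs]
    exact hs2 _ _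
  · obtain ⟨prev, h⟩ := hform j
    rw [h]
    exact hs1 _ _
  · induction j with
    | zero =>
      rw [hP0, pow_zero, one_mul]
      exact hs4 _ _
    | succ j ih =>
      have h1 := hs3 (j + 1) (P j)
      rw [← hPs] at h1
      rw [pow_succ]
      have h2 : 2 ^ j * 2 * M = 2 * (2 ^ j * M) := by ring
      omega
  · induction j with
    | zero =>
      rw [hP0]
      exact hs5 _ _
    | succ j ih =>
      have h1 := hs3 (j + 1) (P j)
      rw [← hPs] at h1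
      rw [pow_succ]
      omega
  · apply hT
    obtain ⟨prev, h⟩ := hform j
    refine le_trans ?_ hK
    rw [h]
    exact hs6 _ _
  · refine ⟨Nat.pair (Nat.pair D m) n, Nat.right_le_pair _ _, ?_⟩
    obtain ⟨prev, h⟩ := hform (Nat.pair (Nat.pair D m) n)
    rw [h]
    have h1 : u (Nat.pair (Nat.pair D m) n) = (D, m) := by
      rw [hu]
      simp only [Nat.unpair_pair]
    have h2 := hs7 (Nat.pair (Nat.pair D m) n) prev
    rw [h1] at h2
    exact h2 hD hm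

/-- the set of all primes is rich -/
lemma rich_primes : Rich {p | p.Prime} := by
  intro D m hD hm n
  have : NeZero D := ⟨by omega⟩
  obtain ⟨p, hpn, hp, hpm⟩ := Nat.forall_exists_prime_gt_and_eq_mod ((ZMod.isUnit_iff_coprime m D).2 hm) n
  exact ⟨p, hp, hpn, (ZMod.natCast_eq_natCast_iff p m D).1 hpm⟩

end Pool.Agent.H608.Tw
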