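import Pool.Agent.H608.Tw.Dist
import Pool.Agent.H608.Tw.Seq

/-!
# The choice of the primes
-/

set_option autoImplicit false

namespace Pool.Agent.H608.Tw

open Finset Filter Topology

/-- category argument -/
theorem baire {ι : Type} [Countable ι] (Φ : ι → (ℕ → Bool) → ℝ) (hc : ∀ s, Continuous (Φ s))
    (hn : ∀ s (ε : ℕ → Bool) (n : ℕ), ∃ ε' : ℕ → Bool, (∀ j < n, ε' j = ε j) ∧ Φ s ε' ≠ 0) :
    ∃ ε, ∀ s, Φ s ε ≠ 0 := by
  by_contra hcon
  push Not at hcon
  have hU : ⋃ s, {ε | Φ s ε = 0} = Set.univ := by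
    rw [Set.eq_univ_iff_forall]
    intro ε
    rw [Set.mem_iUnion]
    exact hcon ε
  obtain ⟨s, ε, hε⟩ := nonempty_interior_of_iUnion_of_closed (fun s => isClosed_eq (hc s) continuous_const) hU
  rw [mem_interior] at hε
  obtain ⟨U, hUs, hUo, hεU⟩ := hε
  rw [isOpen_pi_iff] at hUo
  obtain ⟨I, u, hu, hIu⟩ := hUo ε hεU
  obtain ⟨ε', h1, h2⟩ := hn s ε (I.sup id + 1)
  apply h2
  apply hUs
  apply hIu
  intro j hj
  have h3 : j ≤ I.sup id := le_sup (f := id) (mem_coe.1 hj)
  rw [h1 j (by omega)]
  exact (hu j (mem_coe.1 hj)).2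

open Classical in
/-- the exponent of the twist -/
noncomputable def Lam (E : Set ℕ) (x : ℝ) : ℝ := ∑' p : ℕ, if p ∈ E then D p x else 0

lemma Lam_add_int (E : Set ℕ) (x : ℝ) (n : ℤ) : Lam E (x + n) = Lam E x := by
  unfold Lam
  simp only [D_add_int]

lemma Lam_neg (E : Set ℕ) (x : ℝ) : Lam E (-x) = -Lam E x := by
  unfold Lam
  rw [← tsum_neg]
  apply tsum_congr
  intro p
  split_ifs
  · exact D_neg p x
  · rw [neg_zero]

open Classical in
/-- the sum of the reciprocals converges -/
def Sparse (E : Set ℕ) : Prop := Summable fun p : ℕ => if p ∈ E then (1 : ℝ) / p else 0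

lemma Lam_summable {E : Set ℕ} (hE : ∀ p ∈ E, p.Prime) (hs : Sparse E) (x : ℝ) :
    open Classical in Summable fun p : ℕ => if p ∈ E then D p x else 0 := by
  classical
  refine Summable.of_norm_bounded hs fun p => ?_
  rw [Real.norm_eq_abs]
  split_ifs with h
  · exact D_bound (hE p h).two_le x
  · rw [abs_zero]

open Classical in
/-- the number of the prime factors in `E`, with multiplicities -/
noncomputable def vE (E : Set ℕ) (N : ℕ) : ℕ := ∑ p ∈ N.primeFactors.filter (· ∈ E), N.factorization p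

lemma Lam_dist {E : Set ℕ} (hE : ∀ p ∈ E, p.Prime) (hs : Sparse E) {N : ℕ} (hN : 1 ≤ N) (x : ℝ) :
    ∑ j ∈ range N, Lam E ((x + j) / N) = Lam E x + vE E N * B x := by
  classical
  unfold Lam
  rw [← Summable.tsum_finsetSum fun j _ => Lam_summable hE hs _]
  have h1 : ∀ p : ℕ, ∑ j ∈ range N, (if p ∈ E then D p ((x + j) / N) else 0) =
      (if p ∈ E then D p x else 0) + if p ∈ E then N.factorization p * B x else 0 := by
    intro p
    by_cases h : p ∈ E
    · simp only [if_pos h]
      exact D_dist (hE p h) hN x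
    · simp only [if_neg h, sum_const_zero, add_zero]
  have hfin : ∀ p, p ∉ N.primeFactors.filter (· ∈ E) → (if p ∈ E then N.factorization p * B x else 0 : ℝ) = 0 := by
    intro p hp
    split_ifs with h
    · have h2 : N.factorization p = 0 := by
        by_contra h3
        apply hp
        rw [mem_filter]
        refine ⟨?_, h⟩
        rw [← Nat.support_factorization]
        exact Finsupp.mem_support_iff.2 h3
      rw [h2, Nat.cast_zero, zero_mul]
    · rfl
  have hsum : Summable fun p : ℕ => (if p ∈ E then N.factorization p * B x else 0 : ℝ) :=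
    summable_of_ne_finset_zero fun p hp => hfin p hp
  rw [tsum_congr h1, (Lam_summable hE hs x).tsum_add hsum, tsum_eq_sum hfin]
  congr 1
  unfold vE
  push_cast
  rw [sum_mul]
  refine sum_congr rfl fun p hp => ?_
  rw [if_pos (mem_filter.1 hp).2]

/-- the set of a sequence of choices -/
def Es (P : ℕ → ℕ) (ε : ℕ → Bool) : Set ℕ := {p | ∃ j, ε j = true ∧ P j = p}

section Choice

variable {P : ℕ → ℕ} (hP : StrictMono P) (hp : ∀ j, (P j).Prime ∧ 2 ^ j ≤ P j)

include hP hp

lemma inv_le (j : ℕ) : 1 / (P j : ℝ) ≤ (1 / 2) ^ j := by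
  have h1 : ((2 : ℝ)) ^ j ≤ P j := by exact_mod_cast (hp j).2
  rw [one_div_pow]
  exact one_div_le_one_div_of_le (by positivity) h1

lemma mem_Es (ε : ℕ → Bool) (j : ℕ) : P j ∈ Es P ε ↔ ε j = true := by
  constructor
  · rintro ⟨i, h1, h2⟩
    rwa [hP.injective h2] at h1
  · exact fun h => ⟨j, h, rfl⟩

open Classical in
lemma tsum_Es (ε : ℕ → Bool) (f : ℕ → ℝ) : (∑' p : ℕ, if p ∈ Es P ε then f p else 0) = ∑' j, if ε j = true then f (P j) else 0 := by
  rw [← hP.injective.tsum_eq (f := fun p : ℕ => if p ∈ Es P ε then f p else 0)]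
  · apply tsum_congr
    intro j
    simp only [mem_Es hP hp]
  · intro p h
    by_contra hcon
    apply h
    simp only
    rw [if_neg]
    rintro ⟨j, _, rfl⟩
    exact hcon ⟨j, rfl⟩

lemma Es_sparse (ε : ℕ → Bool) : Sparse (Es P ε) := by
  classical
  unfold Sparse
  have h1 : Summable fun j : ℕ => if ε j = true then 1 / (P j : ℝ) else 0 := by
    refine Summable.of_nonneg_of_le (fun j => ?_) (fun j => ?_)
      (summable_geometric_of_lt_one (by norm_num : (0 : ℝ) ≤ 1 / 2) (by norm_num))
    · split_ifs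
      · positivity
      · exact le_rfl
    · split_ifs
      · exact inv_le hP hp j
      · positivity
  rw [← hP.injective.summable_iff]
  · refine h1.congr fun j => ?_
    simp only [Function.comp, mem_Es hP hp]
  · intro p h
    rw [if_neg]
    rintro ⟨j, _, rfl⟩
    exact h ⟨j, rfl⟩

lemma Es_prime (ε : ℕ → Bool) : ∀ p ∈ Es P ε, p.Prime := by
  rintro p ⟨j, _, rfl⟩
  exact (hp j).1

lemma Lam_Es (ε : ℕ → Bool) (x : ℝ) : Lam (Es P ε) x = ∑' j, if ε j = true then D (P j) x else 0 :=
  tsum_Es hP hp ε fun p => D p x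

lemma term_bound (x : ℝ) (ε : ℕ → Bool) (j : ℕ) : |(if ε j = true then D (P j) x else 0)| ≤ (1 / 2) ^ j := by
  split_ifs
  · exact (D_bound (hp j).1.two_le x).trans (inv_le hP hp j)
  · rw [abs_zero]
    positivity

lemma term_summable (x : ℝ) (ε : ℕ → Bool) : Summable fun j => if ε j = true then D (P j) x else 0 :=
  Summable.of_norm_bounded (summable_geometric_of_lt_one (by norm_num : (0 : ℝ) ≤ 1 / 2) (by norm_num)) fun j => by
    rw [Real.norm_eq_abs]
    exact term_bound hP hp x ε j

lemma Lam_cont (x : ℝ) : Continuous fun ε : ℕ → Bool => Lam (Es P ε) x := by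
  simp only [Lam_Es hP hp]
  apply continuous_tsum (u := fun j => (1 / 2 : ℝ) ^ j)
  · intro j
    have h1 : Continuous fun b : Bool => if b = true then D (P j) x else 0 := continuous_of_discreteTopology
    exact h1.comp (continuous_apply j)
  · exact summable_geometric_of_lt_one (by norm_num) (by norm_num)
  · intro j ε
    rw [Real.norm_eq_abs]
    exact term_bound hP hp x ε j

/-- switching on one coordinate -/
lemma Lam_update (x : ℝ) (ε : ℕ → Bool) {j : ℕ} (hj : ε j = false) :
    Lam (Es P (Function.update ε j true)) x = Lam (Es P ε) x + D (P j) x := by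
  rw [Lam_Es hP hp, Lam_Es hP hp]
  rw [(term_summable hP hp x _).tsum_eq_add_tsum_ite j, (term_summable hP hp x ε).tsum_eq_add_tsum_ite j,
    Function.update_self, if_pos rfl, hj]
  simp only [Bool.false_eq_true, if_false, zero_add]
  rw [add_comm]
  congr 1
  apply tsum_congr
  intro i
  by_cases hij : i = j
  · rw [if_pos hij, if_pos hij]
  · rw [if_neg hij, if_neg hij, Function.update_of_ne hij]

end Choice

end Pool.Agent.H608.Tw
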