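import Pool.Agent.H608.Tw.Baire

/-!
# Monomials in the values of the twisted function
-/

set_option autoImplicit false

namespace Pool.Agent.H608.Tw

open Finset Filter Topology

lemma D_succ {p : ℕ} (hp : 2 ≤ p) (x : ℝ) : D p x = B (p * x) / p + D p (p * x) / p := by
  have hp0 : (p : ℝ) ≠ 0 := by
    have : (2 : ℝ) ≤ p := by exact_mod_cast hp
    positivity
  have h1 := (D_summable hp x).tsum_eq_zero_add
  unfold D
  rw [h1, ← tsum_div_const]
  congr 1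
  · simp
  · apply tsum_congr
    intro k
    have h2 : (p : ℝ) ^ (k + 1 + 1) * x = (p : ℝ) ^ (k + 1) * (p * x) := by ring
    rw [h2, pow_succ (p : ℝ) (k + 1), div_div]

lemma B_rat (q : ℚ) : ∃ s : ℚ, B (q : ℝ) = s := by
  unfold B
  rw [← Rat.cast_fract]
  split_ifs
  · exact ⟨0, by norm_num⟩
  · exact ⟨1 / 2 - Int.fract q, by push_cast; ring⟩

lemma D_iter {p : ℕ} (hp : 2 ≤ p) (q : ℚ) (k : ℕ) :
    ∃ s : ℚ, D p (q : ℝ) = s + D p ((p : ℝ) ^ k * q) / (p : ℝ) ^ k := by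
  have hp0 : (p : ℝ) ≠ 0 := by
    have : (2 : ℝ) ≤ p := by exact_mod_cast hp
    positivity
  induction k with
  | zero => exact ⟨0, by simp⟩
  | succ k ih =>
    obtain ⟨s, hs⟩ := ih
    obtain ⟨t, ht⟩ := B_rat ((p : ℚ) ^ (k + 1) * q)
    push_cast at ht
    refine ⟨s + t / (p : ℚ) ^ (k + 1), ?_⟩
    rw [hs, D_succ hp ((p : ℝ) ^ k * q)]
    have h1 : (p : ℝ) * ((p : ℝ) ^ k * q) = (p : ℝ) ^ (k + 1) * q := by ring
    rw [h1, ht]
    push_cast
    have h2 : (p : ℝ) ^ (k + 1) = p ^ k * p := pow_succ _ _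
    rw [h2]
    field_simp
    try ring

lemma exists_period (p : ℕ) (q : ℚ) : ∃ k l : ℕ, k < l ∧ ∃ z : ℤ, (p : ℝ) ^ l * q = (p : ℝ) ^ k * q + z := by
  have : NeZero q.den := ⟨q.den_nz⟩
  obtain ⟨k, l, hne, heq⟩ := Finite.exists_ne_map_eq_of_infinite
    fun k : ℕ => (((p : ℤ) ^ k * q.num : ℤ) : ZMod q.den)
  have hden : (q.den : ℝ) ≠ 0 := by exact_mod_cast q.den_nz
  have hq : (q : ℝ) = q.num / q.den := by
    exact_mod_cast (Rat.num_div_den q).symm
  have key : ∀ k l : ℕ, (((p : ℤ) ^ k * q.num : ℤ) : ZMod q.den) = (((p : ℤ) ^ l * q.num : ℤ) : ZMod q.den) →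
      ∃ z : ℤ, (p : ℝ) ^ l * q = (p : ℝ) ^ k * q + z := by
    intro k l h
    rw [ZMod.intCast_eq_intCast_iff_dvd_sub] at h
    obtain ⟨z, hz⟩ := h
    refine ⟨z, ?_⟩
    have hz' : ((p : ℝ)) ^ l * q.num - (p : ℝ) ^ k * q.num = q.den * z := by exact_mod_cast hz
    rw [hq]
    field_simp
    linarith
  rcases lt_or_gt_of_ne hne with h | h
  · exact ⟨k, l, h, key k l heq⟩
  · exact ⟨l, k, h, key l k heq.symm⟩

lemma D_rat {p : ℕ} (hp : 2 ≤ p) (q : ℚ) : ∃ s : ℚ, D p (q : ℝ) = s := by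
  obtain ⟨k, l, hkl, z, hz⟩ := exists_period p q
  have hp2 : (2 : ℝ) ≤ p := by exact_mod_cast hp
  have hp0 : (p : ℝ) ≠ 0 := by positivity
  obtain ⟨s, hs⟩ := D_iter hp q k
  obtain ⟨t, ht⟩ := D_iter hp ((p : ℚ) ^ k * q) (l - k)
  push_cast at ht
  have h1 : (p : ℝ) ^ (l - k) * ((p : ℝ) ^ k * q) = (p : ℝ) ^ k * q + z := by
    rw [← mul_assoc, ← pow_add, Nat.sub_add_cancel hkl.le, hz]
  rw [h1, D_add_int] at ht
  have h2 : (1 : ℝ) < (p : ℝ) ^ (l - k) := one_lt_pow₀ (by linarith) (by omega)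
  have h2' : (1 : ℚ) < (p : ℚ) ^ (l - k) := by exact_mod_cast h2
  have h3 : D p ((p : ℝ) ^ k * q) = ((t * (p : ℚ) ^ (l - k) / ((p : ℚ) ^ (l - k) - 1) : ℚ) : ℝ) := by
    push_cast
    have h4 : (p : ℝ) ^ (l - k) - 1 ≠ 0 := by
      intro h
      linarith
    have h5 : (p : ℝ) ^ (l - k) ≠ 0 := pow_ne_zero _ hp0
    rw [eq_div_iff h4]
    field_simp at ht
    linear_combination ht
  refine ⟨s + (t * (p : ℚ) ^ (l - k) / ((p : ℚ) ^ (l - k) - 1)) / (p : ℚ) ^ k, ?_⟩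
  rw [hs, h3]
  push_cast
  ring

lemma comb_zero {r : ℕ} {n : Fin r → ℤ} {a : Fin r → ℝ} {p : ℕ} (hp : 2 ≤ p)
    (h : ∀ k : ℕ, ∑ i, n i * B ((p : ℝ) ^ (k + 1) * a i) = 0) : ∑ i, n i * D p (a i) = 0 := by
  have h1 : ∀ i ∈ (univ : Finset (Fin r)), Summable fun k : ℕ => (n i : ℝ) * (B ((p : ℝ) ^ (k + 1) * a i) / (p : ℝ) ^ (k + 1)) :=
    fun i _ => (D_summable hp (a i)).mul_left _
  have h2 : ∑ i, (n i : ℝ) * D p (a i) = ∑' k : ℕ, ∑ i, (n i : ℝ) * (B ((p : ℝ) ^ (k + 1) * a i) / (p : ℝ) ^ (k + 1)) := by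
    rw [Summable.tsum_finsetSum h1]
    refine sum_congr rfl fun i _ => ?_
    rw [tsum_mul_left]
    rfl
  rw [h2]
  have h3 : ∀ k : ℕ, ∑ i, (n i : ℝ) * (B ((p : ℝ) ^ (k + 1) * a i) / (p : ℝ) ^ (k + 1)) = 0 := by
    intro k
    simp only [← mul_div_assoc]
    rw [← sum_div, h k, zero_div]
  simp only [h3, tsum_zero]

lemma comb_ne_zero {r : ℕ} {n : Fin r → ℤ} {a : Fin r → ℝ} {d m : ℕ} (ha : ∀ i, ∃ z : ℤ, (d : ℝ) * a i = z)
    (hc : ∑ i, n i * B (m * a i) ≠ 0) : ∃ p₀ : ℕ, ∀ p, p₀ < p → p ≡ m [MOD d] → ∑ i, n i * D p (a i) ≠ 0 := by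
  obtain ⟨c, hcd⟩ : ∃ c, c = ∑ i, n i * B (m * a i) := ⟨_, rfl⟩
  obtain ⟨N, hN⟩ : ∃ N : ℝ, N = ∑ i, |(n i : ℝ)| := ⟨_, rfl⟩
  rw [← hcd] at hc
  have hc0 : 0 < |c| := abs_pos.2 hc
  refine ⟨max 2 ⌈N / |c|⌉₊, fun p hp hpm h0 => ?_⟩
  have hp2 : 2 ≤ p := le_trans (le_max_left _ _) hp.le
  have hpN : N / |c| < p := lt_of_le_of_lt (Nat.le_ceil _) (by exact_mod_cast lt_of_le_of_lt (le_max_right _ _) hp)
  have hp0 : (0 : ℝ) < p := by exact_mod_cast (by omega : 0 < p)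
  have hB : ∀ i, B (p * a i) = B (m * a i) := by
    intro i
    obtain ⟨z, hz⟩ := ha i
    obtain ⟨t, ht⟩ := (Nat.modEq_iff_dvd.1 hpm)
    have ht' : (m : ℝ) - p = d * t := by exact_mod_cast ht
    have h1 : (m : ℝ) * a i = p * a i + ((t * z : ℤ) : ℝ) := by
      push_cast
      rw [← hz]
      linear_combination (a i) * ht'
    rw [h1, B_add_int]
  have h1 : ∑ i, (n i : ℝ) * D p (a i) = (c + ∑ i, (n i : ℝ) * D p (p * a i)) / p := by
    rw [hcd, ← sum_add_distrib, sum_div]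
    refine sum_congr rfl fun i _ => ?_
    rw [D_succ hp2 (a i), hB i]
    ring
  rw [h1, div_eq_zero_iff] at h0
  have h2 : c = -∑ i, (n i : ℝ) * D p (p * a i) := by
    rcases h0 with h0 | h0
    · linarith
    · exact absurd h0 hp0.ne'
  have h3 : |c| ≤ N / p := by
    rw [h2, abs_neg, hN, sum_div]
    refine (abs_sum_le_sum_abs _ _).trans (sum_le_sum fun i _ => ?_)
    rw [abs_mul, div_eq_mul_one_div]
    exact mul_le_mul_of_nonneg_left (D_bound hp2 _) (abs_nonneg _)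
  rw [div_lt_iff₀ hc0] at hpN
  rw [le_div_iff₀ hp0] at h3
  linarith

/-- the twisted function -/
noncomputable def GamE (E : Set ℕ) (x : ℝ) : ℝ := Real.Gamma x * (2 : ℝ) ^ Lam E x

lemma prod_GamE (E : Set ℕ) {r : ℕ} (n : Fin r → ℤ) (a : Fin r → ℝ) :
    ∏ i, GamE E (a i) ^ n i = (∏ i, Real.Gamma (a i) ^ n i) * (2 : ℝ) ^ ∑ i, n i * Lam E (a i) := by
  unfold GamE
  rw [Real.rpow_sum_of_pos (by norm_num), ← prod_mul_distrib]
  refine prod_congr rfl fun i _ => ?_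
  rw [mul_zpow, mul_comm (n i : ℝ), Real.rpow_mul_intCast (by norm_num)]

lemma GamE_add_one (E : Set ℕ) {x : ℝ} (hx : x ≠ 0) : GamE E (x + 1) = x * GamE E x := by
  unfold GamE
  have h1 := Lam_add_int E x 1
  push_cast at h1
  rw [Real.Gamma_add_one hx, h1, mul_assoc]

lemma GamE_reflection (E : Set ℕ) (x : ℝ) : GamE E x * GamE E (1 - x) = Real.pi / Real.sin (Real.pi * x) := by
  unfold GamE
  have h1 : Lam E (1 - x) = -Lam E x := by
    rw [← Lam_neg]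
    have h2 := Lam_add_int E (-x) 1
    push_cast at h2
    rw [← h2]
    congr 1
    ring
  rw [h1, ← Real.Gamma_mul_Gamma_one_sub, Real.rpow_neg (by norm_num)]
  have h2 : (2 : ℝ) ^ Lam E x ≠ 0 := (Real.rpow_pos_of_pos (by norm_num) _).ne'
  field_simp

lemma GamE_mult {E : Set ℕ} (hE : ∀ p ∈ E, p.Prime) (hs : Sparse E) {N : ℕ} (hN : 1 ≤ N) {x : ℝ} (h0 : 0 < x) (h1 : x < 1) :
    (∏ j ∈ range N, GamE E ((x + j) / N)) * Real.Gamma x =
      (∏ j ∈ range N, Real.Gamma ((x + j) / N)) * GamE E x * ((2 : ℝ) ^ vE E N) ^ (1 / 2 - x) := by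
  unfold GamE
  rw [prod_mul_distrib, ← Real.rpow_sum_of_pos (by norm_num), Lam_dist hE hs hN, B_of_mem h0 h1,
    Real.rpow_add (by norm_num), Real.rpow_mul (by norm_num), Real.rpow_natCast]
  ring

/-- the values agree up to a rational power of two when the Bernoulli combinations vanish -/
lemma exists_rat_power {E : Set ℕ} (hE : ∀ p ∈ E, p.Prime) (hs : Sparse E) {r : ℕ} {n : Fin r → ℤ} {a : Fin r → ℚ} {d : ℕ}
    (hd : 1 ≤ d) (h : ∀ m : ℕ, m.Coprime d → ∑ i, n i * B (m * a i) = 0) :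
    ∃ s : ℚ, ∏ i, GamE E (a i) ^ n i = (2 : ℝ) ^ (s : ℝ) * ∏ i, Real.Gamma (a i) ^ n i := by
  classical
  have h1 : ∃ s : ℚ, ∑ i, n i * Lam E (a i) = s := by
    unfold Lam
    have h2 : ∀ i ∈ (univ : Finset (Fin r)), Summable fun p : ℕ => (n i : ℝ) * (if p ∈ E then D p (a i) else 0) :=
      fun i _ => (Lam_summable hE hs (a i)).mul_left _
    have h3 : ∑ i, (n i : ℝ) * (∑' p : ℕ, if p ∈ E then D p (a i) else 0) =
        ∑' p : ℕ, if p ∈ E then ∑ i, (n i : ℝ) * D p (a i) else 0 := by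
      simp only [← tsum_mul_left]
      rw [← Summable.tsum_finsetSum h2]
      apply tsum_congr
      intro p
      split_ifs
      · rfl
      · simp
    have h4 : ∀ p, p ∉ d.primeFactors.filter (· ∈ E) → (if p ∈ E then ∑ i, (n i : ℝ) * D p (a i) else 0) = 0 := by
      intro p hp
      split_ifs with hpE
      · have hpp := hE p hpE
        apply comb_zero hpp.two_le
        intro k
        have hpd : ¬ p ∣ d := by
          intro hdiv
          apply hp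
          rw [mem_filter, Nat.mem_primeFactors]
          exact ⟨⟨hpp, hdiv, by omega⟩, hpE⟩
        have h5 := h (p ^ (k + 1)) (Nat.Coprime.pow_left _ ((Nat.Prime.coprime_iff_not_dvd hpp).2 hpd))
        push_cast at h5
        exact h5
      · rfl
    rw [h3, tsum_eq_sum h4]
    have h5 : ∀ p ∈ d.primeFactors.filter (· ∈ E), ∃ s : ℚ, (if p ∈ E then ∑ i, (n i : ℝ) * D p (a i) else 0) = s := by
      intro p hp
      have hpE := (mem_filter.1 hp).2
      rw [if_pos hpE]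
      choose s hs' using fun i => D_rat (hE p hpE).two_le (a i)
      refine ⟨∑ i, n i * s i, ?_⟩
      push_cast
      exact sum_congr rfl fun i _ => by rw [hs' i]
    choose! s hs' using h5
    refine ⟨∑ p ∈ d.primeFactors.filter (· ∈ E), s p, ?_⟩
    push_cast
    exact sum_congr rfl fun p hp => hs' p hp
  obtain ⟨s, hs'⟩ := h1
  refine ⟨s, ?_⟩
  rw [prod_GamE, hs', mul_comm]

/-- the main step -/
theorem exists_twist {A : Set ℕ} (hA : ∀ p ∈ A, p.Prime) (hrich : Rich A) {ω : ℕ → ℕ} (hω : Tendsto ω atTop atTop)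
    {δ : ℝ} (hδ : 0 < δ) {K : Set ℝ} (hK : K.Countable) :
    ∃ E ⊆ A, Sparse E ∧ (∀ x, |Lam E x| ≤ δ) ∧ (∀ k, ({p | p ∈ E ∧ p ≤ k}).ncard ≤ ω k) ∧
      ∀ (r : ℕ) (n : Fin r → ℤ) (a : Fin r → ℚ) (d m : ℕ), (∀ i, ∃ z : ℤ, (d : ℝ) * a i = z) →
        (∀ i, Real.Gamma (a i) ≠ 0) → 1 ≤ d → m.Coprime d → ∑ i, n i * B (m * a i) ≠ 0 →
        ∏ i, GamE E (a i) ^ n i ∉ K := by
  classical
  obtain ⟨M, hM⟩ : ∃ M : ℕ, 1 ≤ M ∧ 2 / (M : ℝ) ≤ δ := by
    refine ⟨⌈2 / δ⌉₊ + 1, by omega, ?_⟩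
    have h1 := Nat.le_ceil (2 / δ)
    rw [div_le_iff₀ (by positivity)]
    rw [div_le_iff₀ hδ] at h1
    push_cast
    nlinarith
  obtain ⟨P, hPm, hPA, hPω, hPr⟩ := exists_seq hrich hω M
  have hp : ∀ j, (P j).Prime ∧ 2 ^ j ≤ P j := fun j => ⟨hA _ (hPA j).1, (hPA j).2.2⟩
  have : Countable K := hK.to_subtype
  -- the index set
  obtain ⟨ε, hε⟩ := baire
    (ι := {s : (Σ r : ℕ, ((Fin r → ℤ) × (Fin r → ℚ) × ℕ × ℕ × K)) //
      (∀ i, ∃ z : ℤ, (s.2.2.2.1 : ℝ) * s.2.2.1 i = z) ∧ (∀ i, Real.Gamma (s.2.2.1 i) ≠ 0) ∧ 1 ≤ s.2.2.2.1 ∧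
        s.2.2.2.2.1.Coprime s.2.2.2.1 ∧ ∑ i, s.2.1 i * B (s.2.2.2.2.1 * s.2.2.1 i) ≠ 0})
    (fun s ε => ∏ i, GamE (Es P ε) (s.1.2.2.1 i) ^ (s.1.2.1 i) - s.1.2.2.2.2.2)
    (fun s => by
      simp only [prod_GamE]
      refine Continuous.sub (continuous_const.mul ?_) continuous_const
      refine Continuous.rpow continuous_const (continuous_finsetSum _ fun i _ => ?_) fun _ => Or.inl (by norm_num)
      exact continuous_const.mul (Lam_cont hPm hp _))
    (fun s ε n => by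
      obtain ⟨⟨r, e, a, d, m, κ⟩, h1, h2, h3, h4, h5⟩ := s
      simp only at h1 h2 h3 h4 h5 ⊢
      obtain ⟨p₀, hp₀⟩ := comb_ne_zero h1 h5
      obtain ⟨j, hj, hjm⟩ := hPr d m h3 h4 (max n (p₀ + 1))
      have hjp : p₀ < P j := by
        have := hPm.le_apply (x := j)
        have := le_max_right n (p₀ + 1)
        omega
      have hjn : n ≤ j := le_trans (le_max_left _ _) hj
      have hne := hp₀ (P j) hjp hjm
      have hag : ∀ b : Bool, ∀ i < n, Function.update ε j b i = ε i := fun b i hi =>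
        Function.update_of_ne (by omega) _ _
      have hup : ∀ x, Lam (Es P (Function.update ε j true)) x = Lam (Es P (Function.update ε j false)) x + D (P j) x := by
        intro x
        have h6 := Lam_update hPm hp x (Function.update ε j false) (j := j) (Function.update_self _ _ _)
        rwa [Function.update_idem] at h6
      by_cases hb : ∏ i, GamE (Es P (Function.update ε j false)) (a i) ^ (e i) - κ = 0
      · refine ⟨Function.update ε j true, hag true, ?_⟩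
        intro hb'
        have h6 : ∏ i, GamE (Es P (Function.update ε j true)) (a i) ^ (e i) =
            ∏ i, GamE (Es P (Function.update ε j false)) (a i) ^ (e i) := by linarith
        rw [prod_GamE, prod_GamE] at h6
        have h7 : ∏ i, Real.Gamma (a i) ^ e i ≠ 0 := prod_ne_zero_iff.2 fun i _ => zpow_ne_zero _ (h2 i)
        have h8 := mul_left_cancel₀ h7 h6
        have h9 := (Real.rpow_right_inj (by norm_num) (by norm_num)).1 h8
        simp only [hup, mul_add, sum_add_distrib] at h9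
        exact hne (by linarith)
      · exact ⟨Function.update ε j false, hag false, hb⟩)
  refine ⟨Es P ε, ?_, Es_sparse hPm hp ε, fun x => ?_, fun k => ?_, fun r n a d m h1 h2 h3 h4 h5 h6 => ?_⟩
  · rintro p ⟨j, _, rfl⟩
    exact (hPA j).1
  · rw [Lam_Es hPm hp]
    have h1 : HasSum (fun j : ℕ => 1 / (M : ℝ) * (1 / 2) ^ j) (1 / (M : ℝ) * 2) := hasSum_geometric_two.mul_left _
    have h2 := tsum_of_norm_bounded h1 (f := fun j => if ε j = true then D (P j) x else 0) fun j => by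
      rw [Real.norm_eq_abs]
      have hMR : (0 : ℝ) < M := by exact_mod_cast hM.1
      split_ifs
      · refine (D_bound (hp j).1.two_le x).trans ?_
        have h3 : (2 : ℝ) ^ j * M ≤ P j := by exact_mod_cast (hPA j).2.1
        rw [one_div_pow, one_div_mul_one_div, mul_comm (M : ℝ)]
        exact one_div_le_one_div_of_le (by positivity) h3
      · rw [abs_zero]
        positivity
    rw [Real.norm_eq_abs] at h2
    refine h2.trans (le_trans (le_of_eq ?_) hM.2)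
    ring
  · have h1 : {p | p ∈ Es P ε ∧ p ≤ k} ⊆ P '' {j | j < ω k} := by
      rintro p ⟨⟨j, _, rfl⟩, h2⟩
      exact ⟨j, hPω j k h2, rfl⟩
    have h2 : ({j | j < ω k} : Set ℕ).Finite := Set.finite_lt_nat _
    refine (Set.ncard_le_ncard h1 (h2.image _)).trans ((Set.ncard_image_le h2).trans ?_)
    have h3 : ({j | j < ω k} : Set ℕ) = ((range (ω k) : Finset ℕ) : Set ℕ) := by
      ext j
      simp
    rw [h3, Set.ncard_coe_finset, card_range]
  · exact hε ⟨⟨r, n, a, d, m, ⟨_, h6⟩⟩, h1, h2, h3, h4, h5⟩ (sub_self _)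

end Pool.Agent.H608.Tw
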