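import Pool.Graph.R_seed8.H916R2.Indep
import Pool.Agent.H608.Tw.Dist

/-!
# The rank of the Stickelberger matrix
-/

set_option autoImplicit false

namespace Pool.Agent.H608.Tw

open Finset
open Pool.Agent.H916R2 (SS saw SS_unit SS_dist exists_SS_ne_zero saw_zero)

variable {q : ℕ} [NeZero q]

open Classical in
lemma card_odd (hq : 2 < q) : 2 * Fintype.card {χ : DirichletCharacter ℂ q // χ.Odd} = q.totient := by
  have : Fact (2 < q) := ⟨hq⟩
  have h1 : ∀ χ : DirichletCharacter ℂ q, χ 1 - χ (-1) = if χ.Odd then 2 else 0 := by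
    intro χ
    rcases χ.even_or_odd with h | h
    · rw [if_neg h.not_odd]
      have h2 : χ (-1) = 1 := h
      rw [h2, map_one]
      ring
    · rw [if_pos h]
      have h2 : χ (-1) = -1 := h
      rw [h2, map_one]
      ring
  have h2 : ∑ χ : DirichletCharacter ℂ q, (χ 1 - χ (-1)) = q.totient := by
    rw [sum_sub_distrib, DirichletCharacter.sum_characters_eq, DirichletCharacter.sum_characters_eq, if_pos rfl,
      if_neg ZMod.neg_one_ne_one, sub_zero]
  rw [sum_congr rfl fun χ _ => h1 χ, ← sum_filter, sum_const, nsmul_eq_mul] at h2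
  have h3 : (((univ.filter fun χ : DirichletCharacter ℂ q => χ.Odd).card * 2 : ℕ) : ℂ) = q.totient := by
    push_cast
    exact h2
  have h4 := Nat.cast_injective h3
  rw [Fintype.card_subtype]
  omega

/-- the rows are independent -/
lemma rows_indep (C : Set (ZMod q)) (hC : ∀ u : (ZMod q)ˣ, ∀ a ∈ C, (u : ZMod q) * a ∈ C)
    (h : ∀ χ : DirichletCharacter ℂ q, χ.Odd → ∃ a ∈ C, SS χ a ≠ 0) :
    LinearIndependent ℂ (fun (χ : {χ : DirichletCharacter ℂ q // χ.Odd}) (a : C) => SS χ.1 a.1) := by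
  classical
  rw [Fintype.linearIndependent_iff]
  intro g hg χ0
  have h1 : ∀ a ∈ C, ∑ χ : {χ : DirichletCharacter ℂ q // χ.Odd}, g χ * SS χ.1 a = 0 := by
    intro a ha
    have h2 := congrFun hg ⟨a, ha⟩
    simpa [Finset.sum_apply] using h2
  obtain ⟨a, haC, ha⟩ := h χ0.1 χ0.2
  let f : {χ : DirichletCharacter ℂ q // χ.Odd} → ((ZMod q)ˣ →* ℂ) :=
    fun χ => (Units.coeHom ℂ).comp (MulChar.toUnitHom (χ.1)⁻¹)
  have hf : Function.Injective f := by
    intro χ ψ h
    have h2 : ∀ u : (ZMod q)ˣ, (χ.1)⁻¹ (u : ZMod q) = (ψ.1)⁻¹ (u : ZMod q) := by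
      intro u
      have := DFunLike.congr_fun h u
      simpa [f, MulChar.coe_toUnitHom] using this
    have h3 : (χ.1)⁻¹ = (ψ.1)⁻¹ := MulChar.ext h2
    exact Subtype.ext (inv_injective h3)
  have hli := (linearIndependent_monoidHom (ZMod q)ˣ ℂ).comp f hf
  rw [Fintype.linearIndependent_iff] at hli
  have h2 := hli (fun χ => g χ * SS χ.1 a) (by
    funext u
    simp only [Function.comp_apply, Finset.sum_apply, Pi.smul_apply, smul_eq_mul, Pi.zero_apply]
    rw [← h1 ((u : ZMod q) * a) (hC u a haC)]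
    refine sum_congr rfl fun χ _ => ?_
    rw [SS_unit]
    have : (f χ) u = (χ.1 u)⁻¹ := by
      simp only [f, MonoidHom.comp_apply, Units.coeHom_apply, MulChar.coe_toUnitHom,
        MulChar.inv_apply_eq_inv']
    rw [this]
    ring) χ0
  exact (mul_eq_zero.mp h2).resolve_right ha

/-- there are `φ(q) / 2` independent columns -/
lemma exists_cols (hq : 2 < q) (C : Set (ZMod q)) (hC : ∀ u : (ZMod q)ˣ, ∀ a ∈ C, (u : ZMod q) * a ∈ C)
    (h : ∀ χ : DirichletCharacter ℂ q, χ.Odd → ∃ a ∈ C, SS χ a ≠ 0) :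
    ∃ f : Fin (q.totient / 2) → ZMod q, (∀ k, f k ∈ C) ∧
      ∀ n : Fin (q.totient / 2) → ℤ, (∀ t : (ZMod q)ˣ, ∑ k, n k * saw ((t : ZMod q) * f k) = 0) → n = 0 := by
  classical
  obtain ⟨V, hV⟩ : ∃ V : Matrix (ZMod q)ˣ C ℂ, V = Matrix.of fun (t : (ZMod q)ˣ) (a : C) => (saw ((t : ZMod q) * a.1) : ℂ) := ⟨_, rfl⟩
  obtain ⟨X, hX⟩ : ∃ X : Matrix {χ : DirichletCharacter ℂ q // χ.Odd} (ZMod q)ˣ ℂ, X =
      Matrix.of fun (χ : {χ : DirichletCharacter ℂ q // χ.Odd}) (t : (ZMod q)ˣ) => χ.1 t := ⟨_, rfl⟩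
  have hXV : X * V = Matrix.of fun (χ : {χ : DirichletCharacter ℂ q // χ.Odd}) (a : C) => SS χ.1 a.1 := by
    funext χ a
    rw [Matrix.mul_apply, hX, hV]
    rfl
  have hrank : (X * V).rank = Fintype.card {χ : DirichletCharacter ℂ q // χ.Odd} := by
    apply LinearIndependent.rank_matrix
    rw [hXV]
    exact rows_indep C hC h
  have h1 : Fintype.card {χ : DirichletCharacter ℂ q // χ.Odd} ≤ V.rank := by
    rw [← hrank]
    exact Matrix.rank_mul_le_right X V
  rw [Matrix.rank_eq_finrank_span_cols] at h1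
  obtain ⟨κ, a, ha, hspan, hli⟩ := exists_linearIndependent' ℂ V.col
  have : Finite κ := Finite.of_injective a ha
  have : Fintype κ := Fintype.ofFinite κ
  rw [← hspan, finrank_span_eq_card hli] at h1
  have h2 := card_odd hq
  have h3 : Fintype.card (Fin (q.totient / 2)) ≤ Fintype.card κ := by
    rw [Fintype.card_fin]
    omega
  obtain ⟨g⟩ := Function.Embedding.nonempty_of_card_le h3
  refine ⟨fun k => (a (g k)).1, fun k => (a (g k)).2, fun n hn => ?_⟩
  have h4 := hli.comp g g.injective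
  rw [Fintype.linearIndependent_iff] at h4
  funext k
  have h5 := h4 (fun k => (n k : ℂ)) (by
    funext t
    simp only [Function.comp_apply, Finset.sum_apply, Pi.smul_apply, smul_eq_mul, Pi.zero_apply]
    have h6 : ((∑ k, n k * saw ((t : ZMod q) * (a (g k)).1) : ℤ) : ℂ) = 0 := by
      rw [hn t]
      simp
    push_cast at h6
    rw [← h6]
    refine sum_congr rfl fun k _ => ?_
    rw [Matrix.col_apply, hV]
    rfl) k
  exact_mod_cast h5

/-- for prime powers the basic sum does not vanish -/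
lemma SS_one_ne_zero {p k : ℕ} (hp : p.Prime) (hqp : q = p ^ k) {χ : DirichletCharacter ℂ q} (hχ : χ.Odd) : SS χ 1 ≠ 0 := by
  obtain ⟨a, ha⟩ := exists_SS_ne_zero χ hχ
  have ha0 : a ≠ 0 := by
    rintro rfl
    apply ha
    unfold SS
    simp [saw_zero]
  have hav : a.val ≠ 0 := fun h => ha0 ((ZMod.val_eq_zero a).1 h)
  obtain ⟨j, b, hb, hab⟩ := Nat.exists_eq_pow_mul_and_not_dvd hav p hp.ne_one
  have hcop : ∀ n : ℕ, ¬ p ∣ n → n.Coprime q := by
    intro n hn
    rw [hqp]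
    exact Nat.Coprime.pow_right _ ((Nat.Prime.coprime_iff_not_dvd hp).2 hn).symm
  have hjk : j < k := by
    have h1 := ZMod.val_lt a
    rw [hab] at h1
    have h2 : 0 < b := Nat.pos_of_ne_zero (by rintro rfl; exact hb (dvd_zero _))
    have h3 : p ^ j < p ^ k := by
      calc p ^ j ≤ p ^ j * b := Nat.le_mul_of_pos_right _ h2
        _ < q := h1
        _ = p ^ k := hqp
    exact (Nat.pow_lt_pow_iff_right hp.one_lt).1 h3
  have h1 : a = ((ZMod.unitOfCoprime b (hcop b hb) : (ZMod q)ˣ) : ZMod q) * ((p ^ j : ℕ) : ZMod q) := by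
    rw [ZMod.coe_unitOfCoprime, ← Nat.cast_mul, mul_comm b, ← hab, ZMod.natCast_zmod_val]
  rw [h1, SS_unit] at ha
  have h2 : SS χ ((p ^ j : ℕ) : ZMod q) ≠ 0 := right_ne_zero_of_mul ha
  have h3 := SS_dist χ (p := p ^ j) (d := p ^ (k - j)) (by rw [← pow_add, hqp]; congr 1; omega) 1
  rw [mul_one] at h3
  rw [← h3] at h2
  obtain ⟨i, _, hi⟩ := exists_ne_zero_of_sum_ne_zero h2
  have h4 : ¬ p ∣ 1 + i * p ^ (k - j) := by
    intro h
    have h5 : p ∣ i * p ^ (k - j) := Dvd.dvd.mul_left (dvd_pow_self p (by omega)) i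
    have h6 := (Nat.dvd_add_left h5).1 h
    exact hp.one_lt.ne' (Nat.dvd_one.1 h6)
  have h5 : (1 : ZMod q) + (i : ZMod q) * ((p ^ (k - j) : ℕ) : ZMod q) =
      ((ZMod.unitOfCoprime _ (hcop _ h4) : (ZMod q)ˣ) : ZMod q) * 1 := by
    rw [ZMod.coe_unitOfCoprime, mul_one]
    push_cast
    ring
  rw [h5, SS_unit] at hi
  exact right_ne_zero_of_mul hi

/-- the relation of the two sawtooth functions -/
lemma B_saw (t a : ZMod q) : B ((t.val : ℝ) * ((a.val : ℝ) / q)) = -(saw (t * a) : ℝ) / (2 * q) := by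
  have hq0 : (0 : ℝ) < q := by exact_mod_cast NeZero.pos q
  have h1 : (t.val : ℝ) * ((a.val : ℝ) / q) = (((t * a).val : ℕ) : ℝ) / q + ((t.val * a.val / q : ℕ) : ℝ) := by
    rw [ZMod.val_mul]
    have h2 : ((t.val * a.val : ℕ) : ℝ) = ((t.val * a.val % q : ℕ) : ℝ) + q * ((t.val * a.val / q : ℕ) : ℝ) := by
      exact_mod_cast (Nat.mod_add_div _ _).symm
    push_cast at h2
    field_simp
    linarith
  rw [h1, B_add_nat]
  by_cases h : t * a = 0
  · rw [h, ZMod.val_zero, saw_zero]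
    simp [B_zero]
  · have h2 : 0 < (t * a).val := Nat.pos_of_ne_zero fun h' => h ((ZMod.val_eq_zero _).1 h')
    have h3 : (t * a).val < q := ZMod.val_lt _
    have h2' : (0 : ℝ) < ((t * a).val : ℕ) := by exact_mod_cast h2
    have h3' : (((t * a).val : ℕ) : ℝ) < q := by exact_mod_cast h3
    rw [B_of_mem (by positivity) (by rw [div_lt_one hq0]; exact h3')]
    unfold saw
    rw [if_neg h]
    push_cast
    field_simp
    ring

end Pool.Agent.H608.Tw
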